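import Pool.Agent.Q149.NCDefs
import Pool.Agent.Q149.NCLower

set_option autoImplicit false

/-!
MP_6a769b_co, question Q1: `log (c_k n) = Θ(n)` for every fixed `k ≥ 2`. The definitions are in
`Pool.Agent.Q149.NCDefs`.
-/

namespace Pool.Agent.Results.MP_6a769b_co.LinearRegime

open Q149.NearConvex Filter Asymptotics

/-- **The number of order types at distance less than `k` from convex position.** For every
`k ≥ 2` one has `log (c_k n) = Θ(n)`; explicitly `2 ^ (n - 3) ≤ n * c_k n` and
`c_k n ≤ 2 ^ ((1 + 26 k + 2 k ^ 2) n)` for all `n ≥ 3`. -/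
theorem result (k : ℕ) (hk : 2 ≤ k) :
    (fun n : ℕ => Real.log (c k n)) =Θ[atTop] (fun n : ℕ => (n : ℝ)) ∧
    ∀ n : ℕ, 3 ≤ n → 2 ^ (n - 3) ≤ n * c k n ∧ c k n ≤ 2 ^ ((1 + 26 * k + 2 * k ^ 2) * n) := by
  have hb : ∀ n : ℕ, 3 ≤ n →
      2 ^ (n - 3) ≤ n * c k n ∧ c k n ≤ 2 ^ ((1 + 26 * k + 2 * k ^ 2) * n) := by
    intro n hn
    refine ⟨?_, upper_pow n k (by omega)⟩
    have h := lower (n - 3) k hk
    rw [Nat.sub_add_cancel hn] at h
    rw [mul_comm]
    exact h
  refine ⟨⟨?_, ?_⟩, hb⟩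
  · -- upper bound
    rw [isBigO_iff]
    refine ⟨(1 + 26 * k + 2 * k ^ 2) * Real.log 2, ?_⟩
    filter_upwards [eventually_ge_atTop 3] with n hn
    obtain ⟨h1, h2⟩ := hb n hn
    have hpos : 0 < c k n := by
      rcases Nat.eq_zero_or_pos (c k n) with h0 | h0
      · rw [h0, mul_zero] at h1
        have : 0 < 2 ^ (n - 3) := by positivity
        omega
      · exact h0
    have h3 : (1 : ℝ) ≤ c k n := by exact_mod_cast hpos
    have h4 : (0 : ℝ) ≤ Real.log (c k n) := Real.log_nonneg h3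
    have h5 : ((c k n : ℕ) : ℝ) ≤ 2 ^ ((1 + 26 * k + 2 * k ^ 2) * n) := by exact_mod_cast h2
    have h6 := Real.log_le_log (by linarith) h5
    rw [Real.log_pow] at h6
    push_cast at h6
    rw [Real.norm_of_nonneg h4, Real.norm_of_nonneg (Nat.cast_nonneg n)]
    linarith
  · -- lower bound
    rw [isBigO_iff]
    refine ⟨8, ?_⟩
    filter_upwards [eventually_ge_atTop 16] with n hn
    obtain ⟨h1, -⟩ := hb n (by omega)
    have hpos : 0 < c k n := by
      rcases Nat.eq_zero_or_pos (c k n) with h0 | h0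
      · rw [h0, mul_zero] at h1
        have : 0 < 2 ^ (n - 3) := by positivity
        omega
      · exact h0
    have hn0 : (0 : ℝ) < n := by exact_mod_cast (by omega : 0 < n)
    have h3 : (1 : ℝ) ≤ c k n := by exact_mod_cast hpos
    have h4 : (0 : ℝ) ≤ Real.log (c k n) := Real.log_nonneg h3
    have h5 : (2 : ℝ) ^ (n - 3) ≤ n * (c k n : ℝ) := by exact_mod_cast h1
    have h6 := Real.log_le_log (by positivity) h5
    rw [Real.log_pow, Real.log_mul hn0.ne' (by linarith), Nat.cast_sub (by omega)] at h6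
    have hl2 : (0.69 : ℝ) ≤ Real.log 2 := by
      have := Real.log_two_gt_d9
      linarith
    -- `log n ≤ n / 4 + log 4`, and the rest is linear
    have h7 : Real.log n ≤ n / 16 - 1 + Real.log 16 := by
      have h8 := Real.log_le_sub_one_of_pos (show (0 : ℝ) < n / 16 by positivity)
      rw [Real.log_div hn0.ne' (by norm_num)] at h8
      linarith
    have h9 : Real.log 16 = 4 * Real.log 2 := by
      rw [show (16 : ℝ) = 2 ^ 4 by norm_num, Real.log_pow]
      norm_num
    have hl3 : Real.log 2 ≤ 0.7 := by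
      have := Real.log_two_lt_d9
      linarith
    have hn16 : (16 : ℝ) ≤ n := by exact_mod_cast hn
    rw [Real.norm_of_nonneg h4, Real.norm_of_nonneg hn0.le]
    push_cast at h6
    nlinarith

end Pool.Agent.Results.MP_6a769b_co.LinearRegime
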